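import Pool.Agent.Work.MP_a2bf38_gt.V.Radial
import Pool.Agent.Work.MP_a2bf38_gt.I.PathOf
import Pool.Agent.Work.MP_a2bf38_gt.I.Diam
import Pool.Agent.Work.MP_a2bf38_gt.I.Exp

/-!
# The diameter of a Kähler-Ricci flow with semi-positive limit class

`diam (M, ω(t)) ≤ C √(1 + |log (T - t)|)`.
-/

open scoped ContDiff ENNReal ComplexOrder
open Set Filter Topology MeasureTheory Pool.Agent.ToricKRF Pool.Agent.ToricKRF.G Pool.Agent.KRFS

namespace Pool.Agent.KRFF

open Circ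

variable {n : ℕ} {M : Type} [TopologicalSpace M] {κ : Type} {T : ℝ} (F : Flow n M κ T)

/-- the bound -/
noncomputable def ff (T t : ℝ) : ℝ := √(1 + |Real.log (T - t)|)

theorem one_le_ff (T t : ℝ) : 1 ≤ ff T t := by
  rw [ff, Real.one_le_sqrt]
  linarith [abs_nonneg (Real.log (T - t))]

/-- the potentials are bounded on compact sets -/
theorem Flow.psi_bound [CompactSpace M] (hT : 0 < T) (c : κ) {A : Set (Cn n)} (hA : IsCompact A)
    (hAt : A ⊆ (F.e c).target) :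
    ∃ C : ℝ, 0 ≤ C ∧ ∀ t ∈ Ico 0 T, ∀ z ∈ A, |F.ψ c (t, z)| ≤ C := by
  obtain ⟨C₁, hC₁, h₁⟩ := F.Phi_bound
  obtain ⟨U, hU, hsub, hψ⟩ := F.krf.smooth c
  have hc0 : ContinuousOn (fun z => F.ψ c (0, z)) A :=
    hψ.continuousOn.comp (by fun_prop) fun z hz => hsub ⟨⟨le_rfl, hT⟩, hAt hz⟩
  have hcΩ : ContinuousOn (fun z => Real.log (F.Ω c z)) A :=
    ContinuousOn.log ((F.vol.smooth c).continuousOn.mono hAt)
      fun z hz => (F.vol.pos c z (hAt hz)).ne'
  obtain ⟨C₂, hC₂⟩ := hA.exists_bound_of_continuousOn hc0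
  obtain ⟨C₃, hC₃⟩ := hA.exists_bound_of_continuousOn hcΩ
  refine ⟨C₁ + |C₂| + T * |C₃|, by positivity, fun t ht z hz => ?_⟩
  have h1 := h₁ t ht ((F.e c).symm z)
  rw [F.Phi_eq ht ((F.e c).map_target (hAt hz)), (F.e c).right_inv (hAt hz)] at h1
  have h2 := (hC₂ z hz).trans (le_abs_self C₂)
  have h3 := (hC₃ z hz).trans (le_abs_self C₃)
  rw [Real.norm_eq_abs] at h2 h3
  have e : F.ψ c (t, z) = F.phi c (t, z) + F.ψ c (0, z) + t * Real.log (F.Ω c z) := by
    simp only [Flow.phi]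
    ring
  rw [e]
  refine (abs_add_le _ _).trans (add_le_add ((abs_add_le _ _).trans (add_le_add h1 h2)) ?_)
  rw [abs_mul, abs_of_nonneg ht.1]
  exact mul_le_mul ht.2.le h3 (abs_nonneg _) hT.le

/-- the growth of `log (3 + C / (T - t))` -/
theorem log_le (hT : 0 < T) {C : ℝ} (hC : 0 ≤ C) : ∃ B : ℝ, 0 ≤ B ∧ ∀ t ∈ Ico 0 T,
    √(Real.log (3 + C / (T - t))) ≤ B * ff T t := by
  refine ⟨√(1 + |Real.log (3 * T + C)|), by positivity, fun t ht => ?_⟩
  rw [ff, ← Real.sqrt_mul (by positivity)]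
  apply Real.sqrt_le_sqrt
  have h0 : 0 < T - t := by linarith [ht.2]
  have h1 : 3 + C / (T - t) ≤ (3 * T + C) / (T - t) := by
    rw [add_div]
    have : 3 ≤ 3 * T / (T - t) := by
      rw [le_div_iff₀ h0]
      nlinarith [ht.1]
    linarith
  have h2 : 0 < 3 + C / (T - t) := by positivity
  have h3 : Real.log (3 + C / (T - t)) ≤ Real.log (3 * T + C) - Real.log (T - t) := by
    rw [← Real.log_div (by positivity) h0.ne']
    exact Real.log_le_log h2 h1
  have h4 := le_abs_self (Real.log (3 * T + C))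
  have h5 := neg_abs_le (Real.log (T - t))
  have h6 : 0 ≤ |Real.log (3 * T + C)| * |Real.log (T - t)| := by positivity
  nlinarith

/-- **Two nearby points.** -/
theorem Flow.two_points_log [CompactSpace M] [T2Space M] (p : M) :
    ∃ C : ℝ, ∀ᶠ q in 𝓝 p, ∀ t ∈ Ico 0 T,
      rdist F.e F.ψ t p q ≤ ENNReal.ofReal (C * ff T t) := by
  by_cases hT : 0 < T
  swap
  · exact ⟨0, Eventually.of_forall fun q t ht => absurd (lt_of_le_of_lt ht.1 ht.2) hT⟩
  obtain ⟨c, hc⟩ := F.atlas.cover p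
  set zp := F.e c p with hzp
  have hzt : zp ∈ (F.e c).target := (F.e c).map_source hc
  obtain ⟨R, hR, hRs⟩ := Metric.nhds_basis_closedBall.mem_iff.1
    ((F.e c).open_target.mem_nhds hzt)
  obtain ⟨C₁, hC₁, h₁⟩ := F.psi_bound hT c (isCompact_closedBall zp R) hRs
  obtain ⟨C₂, hC₂, h₂⟩ := F.lev_le_exp c (isCompact_closedBall zp R) hRs
  obtain ⟨B, hB, hBt⟩ := log_le hT hC₂
  set ε := min 1 (R / 2) with hε
  have hε0 : 0 < ε := lt_min one_pos (by positivity)
  have hε1 : ε ≤ 1 := min_le_left _ _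
  have hεR : ε ≤ R / 2 := min_le_right _ _
  set C' : ℝ := Real.pi * (5 + 3 * (2 * C₁)) * B with hC'
  have hC'0 : 0 ≤ C' := by positivity
  refine ⟨4 * (C' + 1), ?_⟩
  have hcont : Tendsto (fun q => √(nsq (F.e c q - zp))) (𝓝 p) (𝓝 0) := by
    have h1 : Tendsto (F.e c) (𝓝 p) (𝓝 zp) := (F.e c).continuousAt hc
    have h2 : Tendsto (fun q => √(nsq (F.e c q - zp))) (𝓝 p) (𝓝 (√(nsq (zp - zp)))) :=
      (Real.continuous_sqrt.tendsto _).comp ((nsq_continuous.tendsto _).comp (h1.sub_const zp))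
    rw [sub_self, nsq_eq_zero_iff.2 rfl, Real.sqrt_zero] at h2
    exact h2
  filter_upwards [(F.e c).open_source.mem_nhds hc,
    hcont.eventually_lt_const (show (0 : ℝ) < ε / 16 by positivity)] with q hq hqε
  intro t ht
  have hf1 := one_le_ff T t
  obtain ⟨U, hU, hsub, hψ⟩ := F.krf.smooth c
  have hsub' : ∀ z ∈ (F.e c).target, (t, z) ∈ U := fun z hz => hsub ⟨ht, hz⟩
  set w := F.e c q - zp with hw
  by_cases hw0 : w = 0
  · have : q = p := (F.e c).injOn hq hc (sub_eq_zero.1 hw0)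
    rw [this, rdist_self_of_cover F.atlas.cover]
    exact bot_le
  set N := √(nsq w) with hN
  have hN0 : 0 < N := Real.sqrt_pos.2
    (lt_of_le_of_ne (nsq_nonneg w) fun h => hw0 (nsq_eq_zero_iff.1 h.symm))
  set v := (ε / N) • w with hv
  set δ := N / ε with hδ
  have hδ0 : 0 ≤ δ := by positivity
  have hδ1 : δ ≤ 1 / 16 := by
    rw [hδ, div_le_iff₀ hε0]
    linarith
  have hnv : nsq v = ε ^ 2 := by
    rw [hv, nsq_smul', div_pow, hN, Real.sq_sqrt (nsq_nonneg w)]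
    have : nsq w ≠ 0 := fun h => hw0 (nsq_eq_zero_iff.1 h)
    field_simp
  have hnv1 : nsq v ≤ 1 := by
    rw [hnv]
    exact pow_le_one₀ hε0.le hε1
  have hvn : ‖v‖ ≤ ε := by
    have := norm_le_sqrt_nsq v
    rwa [hnv, Real.sqrt_sq hε0.le] at this
  have hline : ∀ ζ : ℂ, ‖ζ‖ ≤ 1 / 2 → ‖lineL v ζ‖ ≤ ε := by
    intro ζ hζ
    rw [lineL_apply]
    refine (norm_add_le _ _).trans ?_
    rw [norm_smul ζ.re v, norm_smul ζ.im (J v), norm_J, Real.norm_eq_abs, Real.norm_eq_abs]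
    have h1 := (Complex.abs_re_le_norm ζ).trans hζ
    have h2 := (Complex.abs_im_le_norm ζ).trans hζ
    nlinarith [norm_nonneg v, abs_nonneg ζ.re, abs_nonneg ζ.im,
      mul_le_mul h1 hvn (norm_nonneg v) (by norm_num : (0:ℝ) ≤ 1 / 2),
      mul_le_mul h2 hvn (norm_nonneg v) (by norm_num : (0:ℝ) ≤ 1 / 2)]
  have hA : ∀ ζ : ℂ, ‖ζ‖ ≤ 1 / 2 → line zp v ζ ∈ Metric.closedBall zp R := by
    intro ζ hζ
    rw [Metric.mem_closedBall, dist_eq_norm, line_eq, add_sub_cancel_left]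
    linarith [hline ζ hζ]
  have hA' : ∀ ζ : ℂ, ‖ζ‖ ≤ 1 / 2 → line (zp + δ • v) v ζ ∈ Metric.closedBall zp R := by
    intro ζ hζ
    rw [Metric.mem_closedBall, dist_eq_norm, line_eq, add_assoc, add_sub_cancel_left]
    refine (norm_add_le _ _).trans ?_
    rw [norm_smul, Real.norm_of_nonneg hδ0]
    nlinarith [hline ζ hζ, mul_le_mul hδ1 hvn (norm_nonneg v) (by norm_num : (0:ℝ) ≤ 1 / 16)]
  have hrays : ∀ z : Cn n, (∀ ζ : ℂ, ‖ζ‖ ≤ 1 / 2 → line z v ζ ∈ Metric.closedBall zp R) →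
      ∫ θ in (0 : ℝ)..2 * Real.pi, ∫ r in (0 : ℝ)..1 / 16,
        √(lapC (fun ζ => F.ψ c (t, line z v ζ)) (r * Complex.exp (θ * Complex.I))) ≤
        (C' + 1) * ff T t := by
    intro z hz
    have hz' : ∀ ζ ∈ Metric.ball (0 : ℂ) (1 / 2), (t, line z v ζ) ∈ U := fun ζ hζ =>
      hsub' _ (hRs (hz ζ (mem_ball_zero_iff.1 hζ).le))
    have hG : ContDiffOn ℝ ∞ (fun ζ => F.ψ c (t, line z v ζ)) (Metric.ball 0 (1 / 2)) :=
      hψ.comp (contDiffOn_const.prodMk (line_contDiff z v).contDiffOn) hz'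
    have hX : 3 ≤ 3 + C₂ / (T - t) := by
      have : 0 ≤ C₂ / (T - t) := div_nonneg hC₂ (by linarith [ht.2])
      linarith
    refine (LogRay.radial_log hG (X := 3 + C₂ / (T - t)) (C₀ := 2 * C₁) ?_ hX ?_ ?_).trans ?_
    · intro ζ hζ
      rw [lapC_line' hU hψ z v (hz' ζ hζ)]
      have := F.lev_nonneg ht (hRs (hz ζ (mem_ball_zero_iff.1 hζ).le)) v
      positivity
    · intro ζ hζ
      rw [lapC_line' hU hψ z v (hz' ζ hζ)]
      have h3 := h₂ t ht _ (hz ζ (mem_ball_zero_iff.1 hζ).le) v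
      have h4 : Real.exp (C₂ / (T - t)) * nsq v ≤ Real.exp (C₂ / (T - t)) * 1 :=
        mul_le_mul_of_nonneg_left hnv1 (Real.exp_pos _).le
      have h5 : (2 * Real.exp (3 + C₂ / (T - t))) ^ 2 =
          4 * (Real.exp 3 * (Real.exp 3 * Real.exp (C₂ / (T - t))) * Real.exp (C₂ / (T - t))) := by
        rw [Real.exp_add]
        ring
      rw [h5]
      have h6 : 1 ≤ Real.exp 3 := Real.one_le_exp (by norm_num)
      have h7 : 1 ≤ Real.exp (C₂ / (T - t)) := Real.one_le_exp (div_nonneg hC₂ (by linarith [ht.2]))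
      have h8 : 1 ≤ Real.exp 3 * (Real.exp 3 * Real.exp (C₂ / (T - t))) :=
        one_le_mul_of_one_le_of_one_le h6 (one_le_mul_of_one_le_of_one_le h6 h7)
      nlinarith
    · intro r hr
      have h3 : cavg (fun ζ => F.ψ c (t, line z v ζ)) r ≤ C₁ := by
        have hmem : ∀ θ : ℝ, ‖(r : ℂ) * Complex.exp (θ * Complex.I)‖ ≤ 1 / 2 := by
          intro θ
          rw [norm_mul, Complex.norm_exp_ofReal_mul_I, mul_one, Complex.norm_real,
            Real.norm_of_nonneg hr.1]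
          exact hr.2.le
        have hc : Continuous fun θ : ℝ => F.ψ c (t, line z v (r * ee θ)) :=
          (contP (fun ζ => F.ψ c (t, line z v ζ)) hG.continuousOn).comp_continuous
            (Continuous.prodMk_right r) fun θ => ⟨⟨by linarith [hr.1], hr.2⟩, mem_univ _⟩
        have h4 : ∫ θ in (0 : ℝ)..2 * Real.pi, F.ψ c (t, line z v (r * ee θ)) ≤
            ∫ θ in (0 : ℝ)..2 * Real.pi, C₁ := by
          refine intervalIntegral.integral_mono_on (by positivity) (hc.intervalIntegrable _ _)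
            intervalIntegrable_const fun θ _ => ?_
          exact (le_abs_self _).trans (h₁ t ht _ (hz _ (hmem θ)))
        rw [intervalIntegral.integral_const, sub_zero, smul_eq_mul] at h4
        have h5 := mul_le_mul_of_nonneg_left h4 (show (0 : ℝ) ≤ (2 * Real.pi)⁻¹ by positivity)
        rw [inv_mul_cancel_left₀ (by positivity)] at h5
        exact h5
      have h4 := neg_abs_le (F.ψ c (t, line z v 0))
      have h5 := h₁ t ht _ (hz 0 (by norm_num))
      linarith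
    · have h3 := hBt t ht
      have h4 : Real.pi * (5 + 3 * (2 * C₁)) * √(Real.log (3 + C₂ / (T - t))) ≤
          Real.pi * (5 + 3 * (2 * C₁)) * (B * ff T t) :=
        mul_le_mul_of_nonneg_left h3 (by positivity)
      have h5 : Real.pi * (5 + 3 * (2 * C₁)) * (B * ff T t) = C' * ff T t := by
        rw [hC']
        ring
      linarith
  have h16 : ∀ ζ : ℂ, ‖ζ‖ ≤ 1 / 16 → ‖ζ‖ ≤ 1 / 2 := fun ζ h => h.trans (by norm_num)
  have hfin := rdist_rays hU hψ hsub' (fun z hz u => F.lev_nonneg ht hz u) hδ0 hδ1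
    (fun ζ hζ => hRs (hA ζ (h16 ζ hζ))) (fun ζ hζ => hRs (hA' ζ (h16 ζ hζ)))
    (by positivity : 0 < (C' + 1) * ff T t) (hrays zp hA) (hrays (zp + δ • v) hA')
  have e1 : zp + δ • v = F.e c q := by
    rw [hv, smul_smul, hδ, div_mul_div_comm, mul_comm N ε, div_self (by positivity), one_smul, hw]
    abel
  rw [e1, (F.e c).left_inv hq, hzp, (F.e c).left_inv hc, ← mul_assoc] at hfin
  exact hfin

/-- **The diameter, from local bounds.** -/
theorem Flow.diam_of_local_fun [CompactSpace M] [ConnectedSpace M] {f : ℝ → ℝ}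
    (hf : ∀ t ∈ Ico 0 T, 0 ≤ f t)
    (h : ∀ p, ∃ C : ℝ, ∀ᶠ q in 𝓝 p, ∀ t ∈ Ico 0 T,
      rdist F.e F.ψ t p q ≤ ENNReal.ofReal (C * f t)) :
    ∃ C : ℝ, ∀ t ∈ Ico 0 T, rdiam F.e F.ψ t ≤ ENNReal.ofReal (C * f t) := by
  -- monotonicity in the constant
  have hmono : ∀ (t : ℝ), t ∈ Ico 0 T → ∀ C : ℝ,
      ENNReal.ofReal (C * f t) ≤ ENNReal.ofReal (max C 0 * f t) := fun t ht C =>
    ENNReal.ofReal_le_ofReal (mul_le_mul_of_nonneg_right (le_max_left _ _) (hf t ht))
  have hadd : ∀ (t : ℝ), t ∈ Ico 0 T → ∀ C C' : ℝ,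
      ENNReal.ofReal (max C 0 * f t) + ENNReal.ofReal (max C' 0 * f t) =
        ENNReal.ofReal ((max C 0 + max C' 0) * f t) := fun t ht C C' => by
    rw [add_mul, ENNReal.ofReal_add (mul_nonneg (le_max_right _ _) (hf t ht))
      (mul_nonneg (le_max_right _ _) (hf t ht))]
  -- the points which can be reached from `p₀` with a bounded cost
  obtain ⟨p₀⟩ : Nonempty M := inferInstance
  set S : Set M := {p | ∃ C : ℝ, ∀ t ∈ Ico 0 T,
    rdist F.e F.ψ t p₀ p ≤ ENNReal.ofReal (C * f t)} with hS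
  have hopen : IsOpen S := by
    rw [isOpen_iff_mem_nhds]
    rintro p ⟨C, hC⟩
    obtain ⟨C', hC'⟩ := h p
    filter_upwards [hC'] with q hq
    refine ⟨max C 0 + max C' 0, fun t ht => ?_⟩
    refine (rdist_triangle' p₀ p q).trans ?_
    rw [← hadd t ht]
    exact add_le_add ((hC t ht).trans (hmono t ht C)) ((hq t ht).trans (hmono t ht C'))
  have hclosed : IsClosed S := by
    rw [← isOpen_compl_iff, isOpen_iff_mem_nhds]
    intro p hp
    obtain ⟨C', hC'⟩ := h p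
    filter_upwards [hC'] with q hq
    rintro ⟨C, hC⟩
    refine hp ⟨max C 0 + max C' 0, fun t ht => ?_⟩
    refine (rdist_triangle' p₀ q p).trans ?_
    rw [← hadd t ht, rdist_comm' q p]
    exact add_le_add ((hC t ht).trans (hmono t ht C)) ((hq t ht).trans (hmono t ht C'))
  have hne : S.Nonempty := ⟨p₀, 0, fun t _ => by
    rw [rdist_self_of_cover F.atlas.cover]
    exact bot_le⟩
  have huniv : S = univ := IsClopen.eq_univ ⟨hclosed, hopen⟩ hne
  -- finitely many neighbourhoods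
  choose C hC using h
  obtain ⟨s, -, hs⟩ := isCompact_univ.elim_nhds_subcover
    (fun p => {q | ∀ t ∈ Ico 0 T, rdist F.e F.ψ t p q ≤ ENNReal.ofReal (C p * f t)})
    fun p _ => hC p
  have hreach : ∀ p : M, ∃ C : ℝ, ∀ t ∈ Ico 0 T,
      rdist F.e F.ψ t p₀ p ≤ ENNReal.ofReal (C * f t) := by
    intro p
    have : p ∈ S := by rw [huniv]; exact mem_univ p
    exact this
  choose B hB using hreach
  set K : ℝ := ∑ p ∈ s, (max (B p) 0 + max (C p) 0) with hK
  have hK0 : 0 ≤ K := Finset.sum_nonneg fun p _ =>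
    add_nonneg (le_max_right _ _) (le_max_right _ _)
  have hKq : ∀ t ∈ Ico 0 T, ∀ q : M, rdist F.e F.ψ t p₀ q ≤ ENNReal.ofReal (K * f t) := by
    intro t ht q
    obtain ⟨p, hp, hq⟩ := mem_iUnion₂.1 (hs (mem_univ q))
    refine (rdist_triangle' p₀ p q).trans ((add_le_add ((hB p t ht).trans (hmono t ht _))
      ((hq t ht).trans (hmono t ht _))).trans ?_)
    rw [hadd t ht]
    apply ENNReal.ofReal_le_ofReal
    refine mul_le_mul_of_nonneg_right ?_ (hf t ht)
    exact Finset.single_le_sum (f := fun p => max (B p) 0 + max (C p) 0)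
      (fun _ _ => add_nonneg (le_max_right _ _) (le_max_right _ _)) hp
  refine ⟨K + K, fun t ht => iSup₂_le fun p q => ?_⟩
  refine (rdist_triangle' p p₀ q).trans ?_
  rw [add_mul, ENNReal.ofReal_add (mul_nonneg hK0 (hf t ht)) (mul_nonneg hK0 (hf t ht))]
  refine add_le_add ?_ (hKq t ht q)
  rw [rdist_comm']
  exact hKq t ht p

theorem Flow.diam_log [CompactSpace M] [T2Space M] [ConnectedSpace M] :
    ∃ C : ℝ, ∀ t ∈ Ico 0 T, rdiam F.e F.ψ t ≤ ENNReal.ofReal (C * ff T t) :=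
  F.diam_of_local_fun (fun t _ => zero_le_one.trans (one_le_ff T t)) F.two_points_log

/-- **The diameter of a Kähler-Ricci flow with semi-positive limit class.** -/
theorem diam_log_of_semipositive [CompactSpace M] [T2Space M] [ConnectedSpace M]
    {e : κ → OpenPartialHomeomorph M (Cn n)} {ψ : κ → ℝ × Cn n → ℝ} {Ω : κ → Cn n → ℝ}
    (ha : IsAtlas e) (hψ : KRFS.IsKRF e T ψ) (hΩ : IsVolume e ψ Ω)
    (hpos : ∀ c, ∀ z ∈ (e c).target, ∀ u,
      0 ≤ lev (ψ c) u (0, z) + T * levz (fun z => Real.log (Ω c z)) u z) :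
    ∃ C : ℝ, ∀ t ∈ Ico 0 T, rdiam e ψ t ≤ ENNReal.ofReal (C * √(1 + |Real.log (T - t)|)) := by
  by_cases hT : 0 < T
  swap
  · exact ⟨0, fun t ht => absurd (lt_of_le_of_lt ht.1 ht.2) hT⟩
  have hs1 : ∀ c, ContDiffOn ℝ ∞ (fun z => ψ c (0, z)) (e c).target := by
    intro c
    obtain ⟨U, hU, hsub, h⟩ := hψ.smooth c
    exact h.comp (contDiff_const.prodMk contDiff_id).contDiffOn fun z hz => hsub ⟨⟨le_rfl, hT⟩, hz⟩
  have hs2 : ∀ c, ContDiffOn ℝ ∞ (fun z => Real.log (Ω c z)) (e c).target := fun c =>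
    (hΩ.smooth c).log fun z hz => (hΩ.pos c z hz).ne'
  have heq : ∀ c, ∀ z ∈ (e c).target, ∀ u,
      lev (ψ c) u (0, z) + T * levz (fun z => Real.log (Ω c z)) u z =
        levz (fun z => ψ c (0, z) + T * Real.log (Ω c z)) u z := by
    intro c z hz u
    obtain ⟨U, hU, hsub, h⟩ := hψ.smooth c
    have h1 : ContDiffAt ℝ 2 (fun z => ψ c (0, z)) z :=
      ((hs1 c).contDiffAt ((e c).open_target.mem_nhds hz)).of_le two_le_infty
    have h2 : ContDiffAt ℝ 2 (fun z => Real.log (Ω c z)) z :=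
      ((hs2 c).contDiffAt ((e c).open_target.mem_nhds hz)).of_le two_le_infty
    rw [Bd.levz_add h1 (contDiffAt_const.mul h2), Bd.levz_const_mul T h2,
      levz_slice hU h (hsub ⟨⟨le_rfl, hT⟩, hz⟩) u]
  let F : Flow n M κ T :=
    { e := e
      ψ := ψ
      Ω := Ω
      Θ := fun c z => ψ c (0, z) + T * Real.log (Ω c z)
      atlas := ha
      krf := hψ
      vol := hΩ
      smooth := fun c => (hs1 c).add (contDiffOn_const.mul (hs2 c))
      psh := fun c z hz u => by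
        rw [← heq c z hz u]
        exact hpos c z hz u
      theta := heq }
  exact F.diam_log

end Pool.Agent.KRFF
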