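import Pool.Agent.Work.MP_a2bf38_gt.I.CircleAvg

/-!
# The lengths of the rays of a disc for a subharmonic function of bounded oscillation

If `Δ G ≤ 4 e^(2X)` and the circle averages of `G` exceed `G 0` by at most `C`, the average length
of the rays is at most `C' √(log X)`: the Cauchy-Schwarz inequality with the weight `r log (1/r)`.
-/

open scoped ContDiff ENNReal ComplexOrder Topology
open Set MeasureTheory Filter Pool.Agent.ToricKRF Pool.Agent.ToricKRF.G Pool.Agent.KRFS

namespace Pool.Agent.KRFF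

open Circ

namespace LogRay

theorem clamp_mem {a b : ℝ} (hab : a ≤ b) (r : ℝ) : max a (min r b) ∈ Icc a b :=
  ⟨le_max_left _ _, max_le hab (min_le_right _ _)⟩

theorem clamp_eq {a b r : ℝ} (hr : r ∈ Icc a b) : max a (min r b) = r := by
  rw [min_eq_left hr.2, max_eq_right hr.1]

/-- the integrals over the rays -/
theorem ray_facts {H : ℂ → ℝ} {w : ℝ → ℝ} {a b : ℝ} (ha : 0 ≤ a) (hab : a ≤ b) (hb : b < 1 / 2)
    (hH : ContinuousOn H (Metric.ball 0 (1 / 2))) (hw : ContinuousOn w (Icc a b)) :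
    (Continuous fun θ : ℝ => ∫ r in a..b, w r * H (r * ee θ)) ∧
    ∫ θ in (0 : ℝ)..2 * Real.pi, ∫ r in a..b, w r * H (r * ee θ) =
      2 * Real.pi * ∫ r in a..b, w r * cavg H r := by
  set F : ℝ → ℝ → ℝ := fun θ r => w (max a (min r b)) * H ((max a (min r b) : ℝ) * ee θ) with hFd
  have hcl : Continuous fun q : ℝ × ℝ => max a (min q.2 b) := by fun_prop
  have hF : Continuous (Function.uncurry F) := by
    refine (hw.comp_continuous hcl fun q => clamp_mem hab _).mul
      (hH.comp_continuous ((Complex.continuous_ofReal.comp hcl).mul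
        (continuous_ee.comp continuous_fst)) fun q => ?_)
    exact mem_ball ⟨by linarith [(clamp_mem hab q.2).1], by linarith [(clamp_mem hab q.2).2]⟩ _
  have hcongr : ∀ θ : ℝ, ∫ r in a..b, w r * H (r * ee θ) = ∫ r in a..b, F θ r := by
    intro θ
    refine intervalIntegral.integral_congr fun r hr => ?_
    rw [uIcc_of_le hab] at hr
    simp only [hFd, clamp_eq hr]
  have hc : Continuous fun θ : ℝ => ∫ r in a..b, w r * H (r * ee θ) := by
    simp only [hcongr]
    exact intervalIntegral.continuous_parametric_intervalIntegral_of_continuous' hF a b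
  refine ⟨hc, ?_⟩
  simp only [hcongr]
  have hint : IntegrableOn (Function.uncurry F) (uIoc 0 (2 * Real.pi) ×ˢ uIoc a b) := by
    have h1 : IntegrableOn (Function.uncurry F) (uIcc 0 (2 * Real.pi) ×ˢ uIcc a b) :=
      hF.continuousOn.integrableOn_compact (isCompact_uIcc.prod isCompact_uIcc)
    exact h1.mono_set (prod_mono uIoc_subset_uIcc uIoc_subset_uIcc)
  rw [intervalIntegral_intervalIntegral_swap hint, ← intervalIntegral.integral_const_mul]
  refine intervalIntegral.integral_congr fun r hr => ?_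
  rw [uIcc_of_le hab] at hr
  simp only [hFd, clamp_eq hr]
  rw [intervalIntegral.integral_const_mul]
  have hpi : (2 * Real.pi) ≠ 0 := by positivity
  unfold cavg
  have e : ∀ θ : ℝ, Complex.exp (θ * Complex.I) = ee θ := fun θ => rfl
  simp only [e]
  field_simp

variable {G : ℂ → ℝ} (hG : ContDiffOn ℝ ∞ G (Metric.ball 0 (1 / 2)))
include hG

theorem smooth_lapC : ContDiffOn ℝ ∞ (lapC G) (Metric.ball 0 (1 / 2)) := by
  have h2 := smooth2 hG
  have h3 : ContDiffOn ℝ ∞ (fun z => G2 G z (ee 0) (ee 0) +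
      G2 G z (Complex.I * ee 0) (Complex.I * ee 0)) (Metric.ball 0 (1 / 2)) :=
    ((h2.clm_apply contDiffOn_const).clm_apply contDiffOn_const).add
      ((h2.clm_apply contDiffOn_const).clm_apply contDiffOn_const)
  exact h3.congr fun z hz => lapC_eq hG hz 0

theorem hasDerivAt_w {r : ℝ} (hr : r ∈ Ioo 0 (1 / 2)) :
    HasDerivAt (fun r => -Real.log r * (r * cavgD G r) + cavg G r)
      (-Real.log r * r * cavg (lapC G) r) r := by
  have hr' : r ∈ Ioo (-(1 / 2 : ℝ)) (1 / 2) := ⟨by linarith [hr.1], hr.2⟩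
  have h1 := (Real.hasDerivAt_log hr.1.ne').neg.mul (hasDerivAt_mul hG hr' hr.1.ne')
  have h2 := h1.add (hasDerivAt_cavg hG hr')
  refine h2.congr_deriv ?_
  have := hr.1.ne'
  rw [Pi.neg_apply]
  field_simp
  ring

/-- the weighted mass -/
theorem mass_le {C₀ s : ℝ} (h0 : ∀ z ∈ Metric.ball (0 : ℂ) (1 / 2), 0 ≤ lapC G z)
    (hosc : ∀ r ∈ Ico (0 : ℝ) (1 / 2), cavg G r - G 0 ≤ C₀) (hs : s ∈ Ioc (0 : ℝ) (1 / 16)) :
    ∫ r in s..1 / 16, -Real.log r * r * cavg (lapC G) r ≤ 3 * C₀ := by
  have hI : ∀ r ∈ uIcc s (1 / 16), r ∈ Ioo (0 : ℝ) (1 / 2) := by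
    intro r hr
    rw [uIcc_of_le hs.2] at hr
    exact ⟨hs.1.trans_le hr.1, by linarith [hr.2]⟩
  have hcl : ContinuousOn (cavg (lapC G)) (Ioo (-(1 / 2)) (1 / 2)) :=
    continuousOn_cavg (smooth_lapC hG)
  have hcont : ContinuousOn (fun r => -Real.log r * r * cavg (lapC G) r) (uIcc s (1 / 16)) := by
    refine ContinuousOn.mul (ContinuousOn.mul (ContinuousOn.neg ?_) continuousOn_id)
      (hcl.mono fun r hr => ⟨by linarith [(hI r hr).1], (hI r hr).2⟩)
    exact Real.continuousOn_log.mono fun r hr => (hI r hr).1.ne'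
  rw [intervalIntegral.integral_eq_sub_of_hasDerivAt
    (fun r hr => hasDerivAt_w hG (hI r hr)) hcont.intervalIntegrable]
  -- the boundary terms
  have hmono := cavgD_monotone hG h0
  set μ : ℝ := 1 / 16 * cavgD G (1 / 16) with hμ
  have hμ0 : 0 ≤ μ := mul_cavgD_nonneg hG h0 ⟨by norm_num, by norm_num⟩
  have hs0 : 0 ≤ s * cavgD G s := mul_cavgD_nonneg hG h0 ⟨hs.1.le, by linarith [hs.2]⟩
  have hls : Real.log s ≤ 0 := Real.log_nonpos hs.1.le (by linarith [hs.2])
  have h1 : G 0 ≤ cavg G s := le_cavg hG h0 ⟨hs.1.le, by linarith [hs.2]⟩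
  -- the mass at `1/16`
  have h2 : cavg G (1 / 16) - μ * Real.log (1 / 16) ≤ cavg G (1 / 4) - μ * Real.log (1 / 4) := by
    have hd : ∀ r ∈ Ioo (0 : ℝ) (1 / 2), HasDerivAt (fun r => cavg G r - μ * Real.log r)
        (cavgD G r - μ * r⁻¹) r := by
      intro r hr
      exact (hasDerivAt_cavg hG ⟨by linarith [hr.1], hr.2⟩).sub
        ((Real.hasDerivAt_log hr.1.ne').const_mul μ)
    have hmon : MonotoneOn (fun r => cavg G r - μ * Real.log r) (Icc (1 / 16) (1 / 4)) := by
      refine monotoneOn_of_deriv_nonneg (convex_Icc _ _) ?_ ?_ ?_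
      · intro r hr
        exact (hd r ⟨by linarith [hr.1], by linarith [hr.2]⟩).continuousAt.continuousWithinAt
      · intro r hr
        rw [interior_Icc] at hr
        exact (hd r ⟨by linarith [hr.1], by linarith [hr.2]⟩).differentiableAt
          |>.differentiableWithinAt
      · intro r hr
        rw [interior_Icc] at hr
        have hr0 : 0 < r := by linarith [hr.1]
        rw [(hd r ⟨hr0, by linarith [hr.2]⟩).deriv]
        have h3 := hmono (a := 1 / 16) (b := r) ⟨by norm_num, by norm_num⟩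
          ⟨hr0.le, by linarith [hr.2]⟩ hr.1.le
        have h4 : μ ≤ r * cavgD G r := h3
        have h5 : μ * r⁻¹ ≤ cavgD G r := by
          rw [← div_eq_mul_inv, div_le_iff₀ hr0, mul_comm]
          exact h4
        linarith
    exact hmon ⟨le_rfl, by norm_num⟩ ⟨by norm_num, le_rfl⟩ (by norm_num)
  have h3 : cavg G (1 / 4) - G 0 ≤ C₀ := hosc _ ⟨by norm_num, by norm_num⟩
  have h4 : cavg G (1 / 16) - G 0 ≤ C₀ := hosc _ ⟨by norm_num, by norm_num⟩
  have h5 : G 0 ≤ cavg G (1 / 16) := le_cavg hG h0 ⟨by norm_num, by norm_num⟩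
  have e1 : Real.log (1 / 16) = -(2 * Real.log 4) := by
    rw [show (1 / 16 : ℝ) = (4 ^ 2)⁻¹ by norm_num, Real.log_inv, Real.log_pow]
    push_cast
    ring
  have e2 : Real.log (1 / 4) = -Real.log 4 := by
    rw [one_div, Real.log_inv]
  rw [e1, e2] at h2
  have h6 : μ * Real.log 4 ≤ C₀ := by nlinarith
  have h7 : -Real.log (1 / 16) * (1 / 16 * cavgD G (1 / 16)) = 2 * (μ * Real.log 4) := by
    rw [e1, hμ]
    ring
  rw [h7]
  have h8 : 0 ≤ -Real.log s * (s * cavgD G s) := mul_nonneg (by linarith) hs0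
  linarith

omit hG in
/-- the integral of `1 / (r log (1/r))` -/
theorem weight_eq {s : ℝ} (hs : s ∈ Ioc (0 : ℝ) (1 / 16)) :
    ContinuousOn (fun r => (r * -Real.log r)⁻¹) (Icc s (1 / 16)) ∧
    ∫ r in s..1 / 16, (r * -Real.log r)⁻¹ ≤ Real.log (-Real.log s) := by
  have hI : ∀ r ∈ Icc s (1 / 16), 0 < r ∧ 0 < -Real.log r := by
    intro r hr
    have h1 : 0 < r := hs.1.trans_le hr.1
    have := Real.log_neg h1 (by linarith [hr.2])
    exact ⟨h1, by linarith⟩
  have hc : ContinuousOn (fun r => (r * -Real.log r)⁻¹) (Icc s (1 / 16)) := by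
    refine ContinuousOn.inv₀ (continuousOn_id.mul (ContinuousOn.neg ?_)) fun r hr => ?_
    · exact Real.continuousOn_log.mono fun r hr => (hI r hr).1.ne'
    · have := hI r hr
      exact (mul_pos this.1 this.2).ne'
  refine ⟨hc, ?_⟩
  have hd : ∀ r ∈ uIcc s (1 / 16), HasDerivAt (fun r => -Real.log (-Real.log r))
      ((r * -Real.log r)⁻¹) r := by
    intro r hr
    rw [uIcc_of_le hs.2] at hr
    obtain ⟨h1, h2⟩ := hI r hr
    have h3 := ((Real.hasDerivAt_log h1.ne').neg.log h2.ne').neg
    refine h3.congr_deriv ?_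
    have := h2.ne'
    have := h1.ne'
    rw [Pi.neg_apply]
    field_simp
  have hu : uIcc s (1 / 16) = Icc s (1 / 16) := uIcc_of_le hs.2
  rw [intervalIntegral.integral_eq_sub_of_hasDerivAt hd (by
    apply ContinuousOn.intervalIntegrable
    rw [hu]
    exact hc)]
  have h4 : 0 ≤ Real.log (-Real.log (1 / 16)) := by
    apply Real.log_nonneg
    rw [← Real.log_inv]
    rw [Real.le_log_iff_exp_le (by norm_num)]
    have := Real.exp_one_lt_d9
    norm_num
    linarith
  linarith

/-- **The average length of the rays.** -/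
theorem radial_log {C₀ X : ℝ} (h0 : ∀ z ∈ Metric.ball (0 : ℂ) (1 / 2), 0 ≤ lapC G z) (hX : 3 ≤ X)
    (hup : ∀ z ∈ Metric.ball (0 : ℂ) (1 / 2), lapC G z ≤ (2 * Real.exp X) ^ 2)
    (hosc : ∀ r ∈ Ico (0 : ℝ) (1 / 2), cavg G r - G 0 ≤ C₀) :
    ∫ θ in (0 : ℝ)..2 * Real.pi, ∫ r in (0 : ℝ)..1 / 16,
      √(lapC G (r * Complex.exp (θ * Complex.I))) ≤
      Real.pi * (5 + 3 * C₀) * √(Real.log X) := by
  have e : ∀ θ : ℝ, Complex.exp (θ * Complex.I) = ee θ := fun θ => rfl
  simp only [e]
  have hpi := Real.pi_pos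
  set s : ℝ := Real.exp (-X) with hs
  have hs0 : 0 < s := Real.exp_pos _
  have hs16 : s ≤ 1 / 16 := by
    have h1 : Real.exp (-X) ≤ Real.exp (-3) := Real.exp_le_exp.2 (by linarith)
    have h2 : (16 : ℝ) ≤ Real.exp 3 := by
      have h3 : Real.exp 3 = Real.exp 1 ^ 3 := by
        rw [← Real.exp_nat_mul]
        norm_num
      have h4 := Real.exp_one_gt_d9
      rw [h3]
      calc (16 : ℝ) ≤ 2.7 ^ 3 := by norm_num
        _ ≤ Real.exp 1 ^ 3 := pow_le_pow_left₀ (by norm_num) (by linarith) 3
    refine h1.trans ?_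
    rw [Real.exp_neg, one_div]
    exact inv_anti₀ (by norm_num) h2
  have hsI : s ∈ Ioc (0 : ℝ) (1 / 16) := ⟨hs0, hs16⟩
  have hlogs : -Real.log s = X := by rw [hs, Real.log_exp, neg_neg]
  have hlX : 1 ≤ Real.log X := by
    rw [Real.le_log_iff_exp_le (by linarith)]
    have := Real.exp_one_lt_d9
    linarith
  set l : ℝ := √(Real.log X) with hl
  have hl1 : 1 ≤ l := by
    rw [hl, Real.one_le_sqrt]
    exact hlX
  have hl0 : 0 < l := by linarith
  have hll : l * l = Real.log X := Real.mul_self_sqrt (by linarith)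
  have hlap : ContinuousOn (lapC G) (Metric.ball 0 (1 / 2)) := continuousOn_lapC hG
  have hsq : ContinuousOn (fun z => √(lapC G z)) (Metric.ball 0 (1 / 2)) :=
    Real.continuous_sqrt.comp_continuousOn hlap
  have hmem : ∀ (r θ : ℝ), 0 ≤ r → r ≤ 1 / 16 → (r : ℂ) * ee θ ∈ Metric.ball (0 : ℂ) (1 / 2) :=
    fun r θ h1 h2 => mem_ball ⟨by linarith, by linarith⟩ θ
  -- continuity of the integrands along a ray
  have hray : ∀ (H : ℂ → ℝ), ContinuousOn H (Metric.ball 0 (1 / 2)) → ∀ (θ a b : ℝ), 0 ≤ a →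
      a ≤ b → b ≤ 1 / 16 → ContinuousOn (fun r : ℝ => H (r * ee θ)) (Icc a b) := by
    intro H hH θ a b ha hab hb
    refine hH.comp (Continuous.continuousOn ?_) fun r hr => hmem r θ (ha.trans hr.1)
      (hr.2.trans hb)
    exact Complex.continuous_ofReal.mul continuous_const
  -- for every angle
  have key : ∀ θ : ℝ, ∫ r in (0 : ℝ)..1 / 16, √(lapC G (r * ee θ)) ≤
      2 + (l / 2 * (∫ r in s..1 / 16, -Real.log r * r * lapC G (r * ee θ)) + l / 2) := by
    intro θ
    have hi : ∀ a b : ℝ, 0 ≤ a → a ≤ b → b ≤ 1 / 16 →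
        IntervalIntegrable (fun r : ℝ => √(lapC G (r * ee θ))) volume a b := by
      intro a b ha hab hb
      apply ContinuousOn.intervalIntegrable
      rw [uIcc_of_le hab]
      exact hray _ hsq θ a b ha hab hb
    rw [← intervalIntegral.integral_add_adjacent_intervals (hi 0 s le_rfl hs0.le hs16)
      (hi s (1 / 16) hs0.le hs16 le_rfl)]
    have h1 : ∫ r in (0 : ℝ)..s, √(lapC G (r * ee θ)) ≤ 2 := by
      have h2 : ∫ r in (0 : ℝ)..s, √(lapC G (r * ee θ)) ≤ ∫ r in (0 : ℝ)..s, 2 * Real.exp X := by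
        refine intervalIntegral.integral_mono_on hs0.le (hi 0 s le_rfl hs0.le hs16)
          intervalIntegrable_const fun r hr => ?_
        rw [← Real.sqrt_sq (show 0 ≤ 2 * Real.exp X by positivity)]
        exact Real.sqrt_le_sqrt (hup _ (hmem r θ hr.1 (hr.2.trans hs16)))
      rw [intervalIntegral.integral_const, sub_zero, smul_eq_mul, hs] at h2
      have h3 : Real.exp (-X) * (2 * Real.exp X) = 2 := by
        rw [Real.exp_neg]
        have := (Real.exp_pos X).ne'
        field_simp
      linarith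
    have hw1 : ContinuousOn (fun r : ℝ => -Real.log r * r * lapC G (r * ee θ))
        (Icc s (1 / 16)) := by
      refine ContinuousOn.mul (ContinuousOn.mul (ContinuousOn.neg ?_) continuousOn_id)
        (hray _ hlap θ s (1 / 16) hs0.le hs16 le_rfl)
      exact Real.continuousOn_log.mono fun r hr => (hs0.trans_le hr.1).ne'
    have hw2 := (weight_eq hsI).1
    have h4 : ∫ r in s..1 / 16, √(lapC G (r * ee θ)) ≤
        ∫ r in s..1 / 16, (l / 2 * (-Real.log r * r * lapC G (r * ee θ)) +
          1 / (2 * l) * (r * -Real.log r)⁻¹) := by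
      refine intervalIntegral.integral_mono_on hs16 (hi s (1 / 16) hs0.le hs16 le_rfl) ?_
        fun r hr => ?_
      · apply ContinuousOn.intervalIntegrable
        rw [uIcc_of_le hs16]
        exact (continuousOn_const.mul hw1).add (continuousOn_const.mul hw2)
      · have hr0 : 0 < r := hs0.trans_le hr.1
        have hlr : 0 < -Real.log r := by
          have := Real.log_neg hr0 (by linarith [hr.2])
          linarith
        set y := lapC G (r * ee θ) with hy
        have hy0 : 0 ≤ y := h0 _ (hmem r θ hr0.le hr.2)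
        set w := r * -Real.log r with hw
        have hw0 : 0 < w := mul_pos hr0 hlr
        have e1 : -Real.log r * r * y = w * y := by rw [hw]; ring
        rw [e1]
        -- `√y ≤ (l/2) w y + 1/(2 l w)`
        have h5 : √y * √y = y := Real.mul_self_sqrt hy0
        have h6 : 0 ≤ (l * w * √y - 1) ^ 2 := sq_nonneg _
        have h7 : l / 2 * (w * y) + 1 / (2 * l) * w⁻¹ - √y =
            (l * w * √y - 1) ^ 2 / (2 * l * w) := by
          have h9 : √y ^ 2 = y := by rw [sq, h5]
          field_simp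
          linear_combination (-(l ^ 2 * w ^ 2)) * h9
        have h8 : 0 ≤ (l * w * √y - 1) ^ 2 / (2 * l * w) := by positivity
        linarith
    rw [intervalIntegral.integral_add, intervalIntegral.integral_const_mul,
      intervalIntegral.integral_const_mul] at h4
    · have h5 := (weight_eq hsI).2
      rw [hlogs] at h5
      have h6 : 1 / (2 * l) * ∫ r in s..1 / 16, (r * -Real.log r)⁻¹ ≤ l / 2 := by
        have h7 : 1 / (2 * l) * ∫ r in s..1 / 16, (r * -Real.log r)⁻¹ ≤
            1 / (2 * l) * Real.log X := mul_le_mul_of_nonneg_left h5 (by positivity)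
        have h8 : 1 / (2 * l) * Real.log X = l / 2 := by
          rw [← hll]
          field_simp
        linarith
      linarith
    · apply ContinuousOn.intervalIntegrable
      rw [uIcc_of_le hs16]
      exact continuousOn_const.mul hw1
    · apply ContinuousOn.intervalIntegrable
      rw [uIcc_of_le hs16]
      exact continuousOn_const.mul hw2
  -- integrate over the angle
  have hwc : ContinuousOn (fun r : ℝ => -Real.log r * r) (Icc s (1 / 16)) := by
    refine ContinuousOn.mul (ContinuousOn.neg ?_) continuousOn_id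
    exact Real.continuousOn_log.mono fun r hr => (hs0.trans_le hr.1).ne'
  obtain ⟨k1, k2⟩ := ray_facts hs0.le hs16 (by norm_num) hlap hwc
  have k3 : Continuous fun θ : ℝ => ∫ r in (0 : ℝ)..1 / 16, √(lapC G (r * ee θ)) := by
    have := (ray_facts (w := fun _ => 1) le_rfl (show (0 : ℝ) ≤ 1 / 16 by norm_num) (by norm_num)
      hsq continuousOn_const).1
    simpa using this
  have k4 : ∫ θ in (0 : ℝ)..2 * Real.pi, ∫ r in (0 : ℝ)..1 / 16, √(lapC G (r * ee θ)) ≤
      ∫ θ in (0 : ℝ)..2 * Real.pi,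
        (2 + (l / 2 * (∫ r in s..1 / 16, -Real.log r * r * lapC G (r * ee θ)) + l / 2)) := by
    refine intervalIntegral.integral_mono_on (by positivity) (k3.intervalIntegrable _ _) ?_
      fun θ _ => key θ
    exact (continuous_const.add ((continuous_const.mul k1).add continuous_const)).intervalIntegrable
      _ _
  have k1' : Continuous fun θ : ℝ =>
      l / 2 * ∫ r in s..1 / 16, -Real.log r * r * lapC G (r * ee θ) := continuous_const.mul k1
  have k1'' : Continuous fun θ : ℝ =>
      l / 2 * (∫ r in s..1 / 16, -Real.log r * r * lapC G (r * ee θ)) + l / 2 :=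
    k1'.add continuous_const
  rw [intervalIntegral.integral_add (intervalIntegrable_const) (k1''.intervalIntegrable _ _),
    intervalIntegral.integral_add (k1'.intervalIntegrable _ _) intervalIntegrable_const,
    intervalIntegral.integral_const_mul, k2,
    intervalIntegral.integral_const, intervalIntegral.integral_const, sub_zero, smul_eq_mul,
    smul_eq_mul] at k4
  have k5 := mass_le hG h0 hosc hsI
  have k6 : l / 2 * (2 * Real.pi * ∫ r in s..1 / 16, -Real.log r * r * cavg (lapC G) r) ≤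
      l / 2 * (2 * Real.pi * (3 * C₀)) :=
    mul_le_mul_of_nonneg_left (mul_le_mul_of_nonneg_left k5 (by positivity)) (by positivity)
  have k7 : Real.pi * 4 ≤ Real.pi * 4 * l := by nlinarith
  nlinarith

end LogRay

end Pool.Agent.KRFF
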